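import Mathlib

/-!
# SIMD arithmetic on packed natural numbers (for kernel checks)

`pk W N a` is the number with the `N` fields `a 0, ..., a (N - 1)` of width `W` bits. All lemmas say that one
operation on packed numbers is the operation on all fields.
-/

namespace Pool.Agent.Helper63.SIMD

/-- packed number with `N` fields of `W` bits -/
def pk (W N : ℕ) (a : ℕ → ℕ) : ℕ := ∑ i ∈ Finset.range N, a i * 2 ^ (W * i)

/-- field `i` of the number `A` -/
def fld (W A i : ℕ) : ℕ := A / 2 ^ (W * i) % 2 ^ W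

variable {W N : ℕ} {a b : ℕ → ℕ}

theorem pk_zero : pk W 0 a = 0 := by simp [pk]

theorem pk_succ : pk W (N + 1) a = pk W N a + a N * 2 ^ (W * N) := by
  unfold pk; rw [Finset.sum_range_succ]

theorem pk_cons : pk W (N + 1) a = 2 ^ W * pk W N (fun i => a (i + 1)) + a 0 := by
  unfold pk
  rw [Finset.sum_range_succ', Finset.mul_sum]
  congr 1
  · refine Finset.sum_congr rfl fun i _ => ?_
    rw [Nat.mul_add, mul_one, pow_add]
    ring
  · simp

theorem pk_congr (h : ∀ i < N, a i = b i) : pk W N a = pk W N b := by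
  unfold pk
  exact Finset.sum_congr rfl fun i hi => by rw [h i (Finset.mem_range.1 hi)]

theorem pk_lt (h : ∀ i < N, a i < 2 ^ W) : pk W N a < 2 ^ (W * N) := by
  induction N generalizing a with
  | zero => simp [pk]
  | succ N ih =>
    rw [pk_cons, Nat.mul_add, mul_one, pow_add]
    have h1 := ih (a := fun i => a (i + 1)) (fun i hi => h (i + 1) (by omega))
    have h2 := h 0 (by omega)
    calc 2 ^ W * pk W N (fun i => a (i + 1)) + a 0
        < 2 ^ W * pk W N (fun i => a (i + 1)) + 2 ^ W := by omega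
      _ = 2 ^ W * (pk W N (fun i => a (i + 1)) + 1) := by ring
      _ ≤ 2 ^ W * 2 ^ (W * N) := Nat.mul_le_mul_left _ h1
      _ = 2 ^ (W * N) * 2 ^ W := by ring

theorem fld_pk (h : ∀ i < N, a i < 2 ^ W) {i : ℕ} (hi : i < N) : fld W (pk W N a) i = a i := by
  induction N generalizing a i with
  | zero => omega
  | succ N ih =>
    rw [pk_cons]
    have h0 := h 0 (by omega)
    cases i with
    | zero =>
      unfold fld
      rw [Nat.mul_zero, pow_zero, Nat.div_one, Nat.mul_add_mod, Nat.mod_eq_of_lt h0]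
    | succ i =>
      have h1 := ih (a := fun i => a (i + 1)) (fun i hi => h (i + 1) (by omega)) (i := i) (by omega)
      unfold fld at h1 ⊢
      rw [Nat.mul_add, mul_one, Nat.add_comm (W * i), pow_add, ← Nat.div_div_eq_div_mul,
        Nat.mul_add_div (Nat.two_pow_pos W), Nat.div_eq_of_lt h0, Nat.add_zero]
      exact h1

/-- two packed numbers are equal iff all fields are equal -/
theorem pk_inj (ha : ∀ i < N, a i < 2 ^ W) (hb : ∀ i < N, b i < 2 ^ W) :
    pk W N a = pk W N b ↔ ∀ i < N, a i = b i := by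
  refine ⟨fun h i hi => ?_, pk_congr⟩
  rw [← fld_pk ha hi, ← fld_pk hb hi, h]

theorem fld_lt {A i : ℕ} : fld W A i < 2 ^ W := Nat.mod_lt _ (Nat.two_pow_pos W)

/-- every number below `2 ^ (W * N)` is packed -/
theorem pk_fld {A : ℕ} (hA : A < 2 ^ (W * N)) : pk W N (fld W A) = A := by
  induction N generalizing A with
  | zero =>
    rw [Nat.mul_zero, pow_zero] at hA
    rw [pk_zero]; omega
  | succ N ih =>
    rw [pk_cons]
    have h1 : (fun i => fld W A (i + 1)) = fld W (A / 2 ^ W) := by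
      funext i
      unfold fld
      rw [Nat.mul_add, mul_one, Nat.add_comm (W * i), pow_add, Nat.div_div_eq_div_mul]
    rw [h1, ih]
    · unfold fld
      rw [Nat.mul_zero, pow_zero, Nat.div_one]
      exact Nat.div_add_mod A (2 ^ W)
    · rw [Nat.mul_add, mul_one, pow_add] at hA
      exact Nat.div_lt_of_lt_mul (by rw [mul_comm]; exact hA)

/-! ## Arithmetic -/

theorem pk_add : pk W N a + pk W N b = pk W N (fun i => a i + b i) := by
  unfold pk
  rw [← Finset.sum_add_distrib]
  exact Finset.sum_congr rfl fun i _ => by ring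

theorem mul_pk (m : ℕ) : m * pk W N a = pk W N (fun i => m * a i) := by
  unfold pk
  rw [Finset.mul_sum]
  exact Finset.sum_congr rfl fun i _ => by ring

theorem pk_sub (h : ∀ i < N, b i ≤ a i) : pk W N a - pk W N b = pk W N (fun i => a i - b i) := by
  have h1 : pk W N (fun i => a i - b i) + pk W N b = pk W N a := by
    rw [pk_add]
    exact pk_congr fun i hi => Nat.sub_add_cancel (h i hi)
  omega

/-- the number with all fields equal to one, as the kernel computes it -/
def rep (W N : ℕ) : ℕ := (2 ^ (W * N) - 1) / (2 ^ W - 1)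

theorem pk_one_mul (hW : 0 < W) : pk W N (fun _ => 1) * (2 ^ W - 1) = 2 ^ (W * N) - 1 := by
  have h1 : 1 ≤ 2 ^ W := Nat.one_le_two_pow
  induction N with
  | zero => simp [pk]
  | succ N ih =>
    rw [pk_cons, add_mul, mul_assoc, ih]
    have h2 : 1 ≤ 2 ^ (W * N) := Nat.one_le_two_pow
    rw [Nat.mul_add, mul_one, pow_add, Nat.mul_sub, mul_one, one_mul]
    have h3 : 2 ^ W * 1 ≤ 2 ^ W * 2 ^ (W * N) := Nat.mul_le_mul_left _ h2
    rw [mul_comm (2 ^ (W * N))]
    omega

theorem rep_eq (hW : 0 < W) : rep W N = pk W N (fun _ => 1) := by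
  unfold rep
  rw [← pk_one_mul hW]
  refine Nat.mul_div_cancel _ ?_
  have h1 : 2 ^ 1 ≤ 2 ^ W := Nat.pow_le_pow_right (by norm_num) hW
  omega

/-- replication of `m` into all fields -/
theorem mul_rep (hW : 0 < W) (m : ℕ) : m * rep W N = pk W N (fun _ => m) := by
  rw [rep_eq hW, mul_pk]
  exact pk_congr fun i _ => mul_one m

/-- outer product of two packed numbers -/
theorem pk_mul_pk (N' : ℕ) : pk (W * N') N a * pk W N' b =
    pk W (N * N') (fun k => a (k / N') * b (k % N')) := by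
  induction N with
  | zero => simp [pk]
  | succ N ih =>
    rw [pk_succ, add_mul, ih]
    unfold pk
    rw [Nat.add_mul, one_mul, Finset.sum_range_add]
    congr 1
    rw [Finset.mul_sum]
    refine Finset.sum_congr rfl fun j hj => ?_
    have hj' := Finset.mem_range.1 hj
    have hN : 0 < N' := by omega
    have e1 : (N * N' + j) / N' = N := by
      rw [mul_comm, Nat.mul_add_div hN, Nat.div_eq_of_lt hj', Nat.add_zero]
    have e2 : (N * N' + j) % N' = j := by
      rw [mul_comm, Nat.mul_add_mod, Nat.mod_eq_of_lt hj']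
    have e3 : 2 ^ (W * (N * N' + j)) = 2 ^ (W * N' * N) * 2 ^ (W * j) := by
      rw [← pow_add]
      congr 1
      ring
    simp only [e1, e2, e3]
    ring

/-- rows: `a (k / N')` in field `k` -/
theorem rows (hW : 0 < W) (N' : ℕ) :
    pk (W * N') N a * rep W N' = pk W (N * N') (fun k => a (k / N')) := by
  rw [rep_eq hW, pk_mul_pk]
  exact pk_congr fun i _ => mul_one _

/-- columns: `b (k % N')` in field `k` -/
theorem cols (hW : 0 < W) {N' : ℕ} (hN' : 0 < N') :
    rep (W * N') N * pk W N' b = pk W (N * N') (fun k => b (k % N')) := by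
  rw [rep_eq (Nat.mul_pos hW hN'), pk_mul_pk]
  exact pk_congr fun i _ => one_mul _

/-! ## Bit operations -/

theorem land_cons {x y p q : ℕ} (hp : p < 2 ^ W) (hq : q < 2 ^ W) :
    (2 ^ W * x + p) &&& (2 ^ W * y + q) = 2 ^ W * (x &&& y) + (p &&& q) := by
  refine Nat.eq_of_testBit_eq fun j => ?_
  have h : p &&& q < 2 ^ W := lt_of_le_of_lt Nat.and_le_left hp
  rw [Nat.testBit_and, Nat.testBit_two_pow_mul_add _ hp, Nat.testBit_two_pow_mul_add _ hq,
    Nat.testBit_two_pow_mul_add _ h]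
  split_ifs <;> rw [Nat.testBit_and]

theorem lor_cons {x y p q : ℕ} (hp : p < 2 ^ W) (hq : q < 2 ^ W) :
    (2 ^ W * x + p) ||| (2 ^ W * y + q) = 2 ^ W * (x ||| y) + (p ||| q) := by
  refine Nat.eq_of_testBit_eq fun j => ?_
  have h : p ||| q < 2 ^ W := Nat.or_lt_two_pow hp hq
  rw [Nat.testBit_or, Nat.testBit_two_pow_mul_add _ hp, Nat.testBit_two_pow_mul_add _ hq,
    Nat.testBit_two_pow_mul_add _ h]
  split_ifs <;> rw [Nat.testBit_or]

theorem xor_cons {x y p q : ℕ} (hp : p < 2 ^ W) (hq : q < 2 ^ W) :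
    (2 ^ W * x + p) ^^^ (2 ^ W * y + q) = 2 ^ W * (x ^^^ y) + (p ^^^ q) := by
  refine Nat.eq_of_testBit_eq fun j => ?_
  have h : p ^^^ q < 2 ^ W := Nat.xor_lt_two_pow hp hq
  rw [Nat.testBit_xor, Nat.testBit_two_pow_mul_add _ hp, Nat.testBit_two_pow_mul_add _ hq,
    Nat.testBit_two_pow_mul_add _ h]
  split_ifs <;> rw [Nat.testBit_xor]

theorem pk_land (ha : ∀ i < N, a i < 2 ^ W) (hb : ∀ i < N, b i < 2 ^ W) :
    pk W N a &&& pk W N b = pk W N (fun i => a i &&& b i) := by
  induction N generalizing a b with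
  | zero => simp [pk]
  | succ N ih =>
    rw [pk_cons, pk_cons, pk_cons, land_cons (ha 0 (by omega)) (hb 0 (by omega)),
      ih (fun i hi => ha (i + 1) (by omega)) (fun i hi => hb (i + 1) (by omega))]

theorem pk_lor (ha : ∀ i < N, a i < 2 ^ W) (hb : ∀ i < N, b i < 2 ^ W) :
    pk W N a ||| pk W N b = pk W N (fun i => a i ||| b i) := by
  induction N generalizing a b with
  | zero => simp [pk]
  | succ N ih =>
    rw [pk_cons, pk_cons, pk_cons, lor_cons (ha 0 (by omega)) (hb 0 (by omega)),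
      ih (fun i hi => ha (i + 1) (by omega)) (fun i hi => hb (i + 1) (by omega))]

theorem pk_xor (ha : ∀ i < N, a i < 2 ^ W) (hb : ∀ i < N, b i < 2 ^ W) :
    pk W N a ^^^ pk W N b = pk W N (fun i => a i ^^^ b i) := by
  induction N generalizing a b with
  | zero => simp [pk]
  | succ N ih =>
    rw [pk_cons, pk_cons, pk_cons, xor_cons (ha 0 (by omega)) (hb 0 (by omega)),
      ih (fun i hi => ha (i + 1) (by omega)) (fun i hi => hb (i + 1) (by omega))]

/-! ## Tests -/

/-- the number with the top bit of every field -/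
def hi (W N : ℕ) : ℕ := 2 ^ (W - 1) * rep W N

/-- `field ≥ t` for all fields: the top bit of the field says yes -/
def geT (W N t x : ℕ) : ℕ := ((x ||| hi W N) - t * rep W N) &&& hi W N

theorem geT_pk {t : ℕ} (hW : 0 < W) (ht : t ≤ 2 ^ (W - 1)) (ha : ∀ i < N, a i < 2 ^ (W - 1)) :
    geT W N t (pk W N a) = pk W N (fun i => if t ≤ a i then 2 ^ (W - 1) else 0) := by
  have h2 : 2 ^ W = 2 ^ (W - 1) + 2 ^ (W - 1) := by
    obtain ⟨w, rfl⟩ := Nat.exists_eq_succ_of_ne_zero hW.ne'
    rw [Nat.succ_sub_one, pow_succ]; ring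
  have hp := Nat.two_pow_pos (W - 1)
  have hH : hi W N = pk W N (fun _ => 2 ^ (W - 1)) := mul_rep hW _
  have hH' : ∀ i < N, (fun _ : ℕ => 2 ^ (W - 1)) i < 2 ^ W := fun i _ => by
    show 2 ^ (W - 1) < 2 ^ W
    omega
  unfold geT
  rw [hH, mul_rep hW, pk_lor (fun i hi => by have := ha i hi; omega) hH']
  have h3 : pk W N (fun i => a i ||| 2 ^ (W - 1)) = pk W N (fun i => a i + 2 ^ (W - 1)) := by
    refine pk_congr fun i hi => ?_
    have h4 := Nat.two_pow_add_eq_or_of_lt (ha i hi) 1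
    rw [mul_one] at h4
    rw [Nat.lor_comm, ← h4, Nat.add_comm]
  rw [h3, pk_sub (fun i hi => by have := ha i hi; omega), pk_land (fun i hi => by
    have := ha i hi
    show a i + 2 ^ (W - 1) - t < 2 ^ W
    omega) hH']
  refine pk_congr fun i hi => ?_
  have h5 := ha i hi
  split_ifs with h6
  · have h7 : a i + 2 ^ (W - 1) - t = 2 ^ (W - 1) * 1 + (a i - t) := by omega
    show (a i + 2 ^ (W - 1) - t) &&& 2 ^ (W - 1) = 2 ^ (W - 1)
    rw [h7]
    have h8 : 2 ^ (W - 1) * 1 + (a i - t) &&& 2 ^ (W - 1) * 1 + 0 =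
        2 ^ (W - 1) * (1 &&& 1) + ((a i - t) &&& 0) :=
      land_cons (by omega) (by omega)
    simpa using h8
  · show (a i + 2 ^ (W - 1) - t) &&& 2 ^ (W - 1) = 0
    have h8 : 2 ^ (W - 1) * 0 + (a i + 2 ^ (W - 1) - t) &&& 2 ^ (W - 1) * 1 + 0 =
        2 ^ (W - 1) * (0 &&& 1) + ((a i + 2 ^ (W - 1) - t) &&& 0) :=
      land_cons (by omega) (by omega)
    simpa using h8

/-- if the test gives all top bits, then every field is at least `t` -/
theorem forall_ge {t : ℕ} (hW : 0 < W) (ht : t ≤ 2 ^ (W - 1)) (ha : ∀ i < N, a i < 2 ^ (W - 1))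
    (h : geT W N t (pk W N a) = hi W N) : ∀ i < N, t ≤ a i := by
  have hp := Nat.two_pow_pos (W - 1)
  have h2 : 2 ^ W = 2 ^ (W - 1) + 2 ^ (W - 1) := by
    obtain ⟨w, rfl⟩ := Nat.exists_eq_succ_of_ne_zero hW.ne'
    rw [Nat.succ_sub_one, pow_succ]; ring
  rw [geT_pk hW ht ha, show hi W N = pk W N (fun _ => 2 ^ (W - 1)) from mul_rep hW _] at h
  intro i hi
  have h3 := (pk_inj (fun i _ => by
    show (if t ≤ a i then 2 ^ (W - 1) else 0) < 2 ^ W
    split_ifs <;> omega) (fun i _ => by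
    show 2 ^ (W - 1) < 2 ^ W
    omega)).1 h i hi
  by_contra hc
  rw [if_neg hc] at h3
  omega

/-- if the test gives zero, then every field is less than `t` -/
theorem forall_lt {t : ℕ} (hW : 0 < W) (ht : t ≤ 2 ^ (W - 1)) (ha : ∀ i < N, a i < 2 ^ (W - 1))
    (h : geT W N t (pk W N a) = 0) : ∀ i < N, a i < t := by
  have hp := Nat.two_pow_pos (W - 1)
  have h2 : 2 ^ W = 2 ^ (W - 1) + 2 ^ (W - 1) := by
    obtain ⟨w, rfl⟩ := Nat.exists_eq_succ_of_ne_zero hW.ne'
    rw [Nat.succ_sub_one, pow_succ]; ring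
  have h0 : (0 : ℕ) = pk W N (fun _ => 0) := by simp [pk]
  rw [geT_pk hW ht ha] at h
  have h' := h.trans h0
  intro i hi
  have h3 := (pk_inj (fun i _ => by
    show (if t ≤ a i then 2 ^ (W - 1) else 0) < 2 ^ W
    split_ifs <;> omega) (fun i _ => by
    show 0 < 2 ^ W
    exact Nat.two_pow_pos W)).1 h' i hi
  by_contra hc
  rw [if_pos (not_lt.1 hc)] at h3
  omega

/-! ## Population counts: merging neighbouring fields -/

/-- sum of the two halves of every field of width `2 * w` -/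
def merge (w n x : ℕ) : ℕ :=
  (x &&& ((2 ^ w - 1) * rep (2 * w) n)) + ((x >>> w) &&& ((2 ^ w - 1) * rep (2 * w) n))

theorem pk_double {w n : ℕ} : pk w (2 * n) a =
    pk (2 * w) n (fun i => 2 ^ w * a (2 * i + 1) + a (2 * i)) := by
  induction n generalizing a with
  | zero => simp [pk]
  | succ n ih =>
    rw [Nat.mul_add, mul_one, pk_cons (W := w), pk_cons (W := w), pk_cons (W := 2 * w), ih]
    have h1 : pk (2 * w) n (fun i => 2 ^ w * a (2 * i + 1 + 1 + 1) + a (2 * i + 1 + 1)) =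
        pk (2 * w) n (fun i => 2 ^ w * a (2 * (i + 1) + 1) + a (2 * (i + 1))) := rfl
    rw [h1, two_mul w, pow_add]
    ring_nf

theorem merge_pk {w n : ℕ} (hw : 0 < w) (ha : ∀ i < 2 * n, a i < 2 ^ w) :
    merge w n (pk w (2 * n) a) = pk (2 * w) n (fun i => a (2 * i) + a (2 * i + 1)) := by
  have hpos := Nat.two_pow_pos w
  have h2w : 2 ^ (2 * w) = 2 ^ w * 2 ^ w := by rw [two_mul, pow_add]
  have hb : ∀ i < n, 2 ^ w * a (2 * i + 1) + a (2 * i) < 2 ^ (2 * w) := by
    intro i hi
    have h1 := ha (2 * i + 1) (by omega)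
    have h2 := ha (2 * i) (by omega)
    rw [h2w]
    calc 2 ^ w * a (2 * i + 1) + a (2 * i) < 2 ^ w * a (2 * i + 1) + 2 ^ w := by omega
      _ = 2 ^ w * (a (2 * i + 1) + 1) := by ring
      _ ≤ 2 ^ w * 2 ^ w := Nat.mul_le_mul_left _ h1
  have hm : ∀ i < n, (fun _ : ℕ => 2 ^ w - 1) i < 2 ^ (2 * w) := by
    intro i _
    show 2 ^ w - 1 < 2 ^ (2 * w)
    rw [h2w]
    have : 2 ^ w * 1 ≤ 2 ^ w * 2 ^ w := Nat.mul_le_mul_left _ hpos
    omega
  have hmask : (2 ^ w - 1) * rep (2 * w) n = pk (2 * w) n (fun _ => 2 ^ w - 1) :=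
    mul_rep (by omega) _
  unfold merge
  rw [hmask]
  -- low halves
  have e1 : pk w (2 * n) a &&& pk (2 * w) n (fun _ => 2 ^ w - 1) =
      pk (2 * w) n (fun i => a (2 * i)) := by
    rw [pk_double, pk_land hb hm]
    refine pk_congr fun i hi => ?_
    show (2 ^ w * a (2 * i + 1) + a (2 * i)) &&& (2 ^ w - 1) = a (2 * i)
    rw [Nat.and_two_pow_sub_one_eq_mod, Nat.mul_add_mod, Nat.mod_eq_of_lt (ha (2 * i) (by omega))]
  -- high halves
  have e2 : (pk w (2 * n) a) >>> w &&& pk (2 * w) n (fun _ => 2 ^ w - 1) =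
      pk (2 * w) n (fun i => a (2 * i + 1)) := by
    cases n with
    | zero => simp [pk]
    | succ n =>
      have h3 : pk w (2 * (n + 1)) a >>> w = pk w (2 * n + 1) (fun i => a (i + 1)) := by
        rw [Nat.mul_add, mul_one, show 2 * n + 2 = (2 * n + 1) + 1 from rfl, pk_cons,
          Nat.shiftRight_eq_div_pow, Nat.mul_add_div hpos,
          Nat.div_eq_of_lt (ha 0 (by omega)), Nat.add_zero]
      have h4 : pk w (2 * n + 1) (fun i => a (i + 1)) =
          pk w (2 * (n + 1)) (fun i => if i < 2 * n + 1 then a (i + 1) else 0) := by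
        rw [Nat.mul_add, mul_one, show 2 * n + 2 = (2 * n + 1) + 1 from rfl,
          pk_succ (N := 2 * n + 1)]
        rw [if_neg (lt_irrefl _), Nat.zero_mul, Nat.add_zero]
        exact pk_congr fun i hi => by rw [if_pos hi]
      rw [h3, h4, pk_double, pk_land _ hm]
      · refine pk_congr fun i hi => ?_
        rw [Nat.and_two_pow_sub_one_eq_mod, Nat.mul_add_mod, if_pos (by omega),
          Nat.mod_eq_of_lt (ha (2 * i + 1) (by omega))]
      · intro i hi
        have h5 : (if 2 * i < 2 * n + 1 then a (2 * i + 1) else 0) < 2 ^ w := by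
          rw [if_pos (by omega)]; exact ha _ (by omega)
        have h6 : (if 2 * i + 1 < 2 * n + 1 then a (2 * i + 1 + 1) else 0) < 2 ^ w := by
          split_ifs
          · exact ha _ (by omega)
          · exact hpos
        rw [h2w]
        calc _ < 2 ^ w * (if 2 * i + 1 < 2 * n + 1 then a (2 * i + 1 + 1) else 0) + 2 ^ w := by
              omega
          _ = 2 ^ w * ((if 2 * i + 1 < 2 * n + 1 then a (2 * i + 1 + 1) else 0) + 1) := by ring
          _ ≤ 2 ^ w * 2 ^ w := Nat.mul_le_mul_left _ h6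
  rw [e1, e2, pk_add]

end Pool.Agent.Helper63.SIMD
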