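import Pool.Agent.Helper63.SIMD.Pack

/-!
# SIMD: a test on all pairs of two packed lists by ten big number operations
-/

namespace Pool.Agent.Helper63.SIMD

/-- all pairs of fields of `A` (stride `W * N'`) and `B` (stride `W`) have a common bit -/
def crossNe (W N N' A B : ℕ) : Bool :=
  Nat.beq (geT W (N * N') 1 ((A * rep W N') &&& (rep (W * N') N * B))) (hi W (N * N'))

theorem crossNe_sound {W N N' : ℕ} {a b : ℕ → ℕ} (hW : 1 < W) (hN' : 0 < N')
    (ha : ∀ i < N, a i < 2 ^ (W - 1)) (hb : ∀ j < N', b j < 2 ^ (W - 1))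
    (h : crossNe W N N' (pk (W * N') N a) (pk W N' b) = true) :
    ∀ i < N, ∀ j < N', a i &&& b j ≠ 0 := by
  have hW0 : 0 < W := by omega
  have h2 : 2 ^ (W - 1) ≤ 2 ^ W := Nat.pow_le_pow_right (by norm_num) (by omega)
  have h1 := Nat.eq_of_beq_eq_true h
  rw [rows hW0, cols hW0 hN', pk_land] at h1
  · have h3 := forall_ge (t := 1) hW0 Nat.one_le_two_pow (fun k hk => ?_) h1
    · intro i hi j hj
      have hlt : N' * i + j < N * N' := by
        have h4 : N' * (i + 1) ≤ N' * N := Nat.mul_le_mul_left _ hi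
        rw [Nat.mul_add, mul_one] at h4
        rw [mul_comm N N']
        omega
      have h5 := h3 (N' * i + j) hlt
      rw [Nat.mul_add_div hN', Nat.div_eq_of_lt hj, Nat.add_zero, Nat.mul_add_mod,
        Nat.mod_eq_of_lt hj] at h5
      omega
    · have hk1 : k / N' < N := Nat.div_lt_of_lt_mul (by rw [mul_comm]; exact hk)
      exact lt_of_le_of_lt Nat.and_le_left (ha _ hk1)
  · intro k hk
    have hk1 : k / N' < N := Nat.div_lt_of_lt_mul (by rw [mul_comm]; exact hk)
    exact lt_of_lt_of_le (ha _ hk1) h2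
  · intro k hk
    exact lt_of_lt_of_le (hb _ (Nat.mod_lt _ hN')) h2

end Pool.Agent.Helper63.SIMD
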